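import Mathlib

namespace Pool.Agent.MP305

/-- Weights on the torus `ZMod a × ZMod b` (the second coordinate is read in `0..b`, with
column `b` equal to column `0`) all of whose cells are unbalanced and whose initial
signless incidence system has only the trivial solution. -/
def Good (F : Type*) [Field F] (a b : ℕ) : Prop :=
  ∃ w : ZMod a → ℕ → ℕ, (∀ i, w i b = w i 0) ∧
    (∀ i, ∀ k < b, w i k + w (i + 1) (k + 1) ≠ w i (k + 1) + w (i + 1) k) ∧
    ∀ y : ZMod a → ℕ → F, (∀ i, y i b = y i 0) →
      (∀ i, ∀ k < b, w i k + w (i + 1) (k + 1) < w i (k + 1) + w (i + 1) k →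
        y i k + y (i + 1) (k + 1) = 0) →
      (∀ i, ∀ k < b, w i (k + 1) + w (i + 1) k < w i k + w (i + 1) (k + 1) →
        y i (k + 1) + y (i + 1) k = 0) →
      ∀ i, ∀ k < b, y i k = 0

theorem good_three (F : Type*) [Field F] (h2 : (2 : F) ≠ 0) : Good F 3 3 := by
  refine ⟨fun i k => if (k : ZMod 3) = i then 0 else 1, ?_, ?_, ?_⟩
  · intro i
    fin_cases i <;> decide
  · intro i k hk
    interval_cases k <;> fin_cases i <;> decide
  · intro y hc hlt hgt
    have e0 := hlt 0 0 (by norm_num) (by decide)
    have e1 := hlt 1 1 (by norm_num) (by decide)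
    have e2 := hlt 2 2 (by norm_num) (by decide)
    have f0 := hgt 0 1 (by norm_num) (by decide)
    have f1 := hgt 1 2 (by norm_num) (by decide)
    have f2 := hgt 2 0 (by norm_num) (by decide)
    have g0 := hgt 0 2 (by norm_num) (by decide)
    have g1 := hgt 1 0 (by norm_num) (by decide)
    have g2 := hgt 2 1 (by norm_num) (by decide)
    have c0 := hc 0
    have c1 := hc 1
    have c2 := hc 2
    have s01 : (0 : ZMod 3) + 1 = 1 := by decide
    have s12 : (1 : ZMod 3) + 1 = 2 := by decide
    have s20 : (2 : ZMod 3) + 1 = 0 := by decide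
    simp only [s01, s12, s20, Nat.reduceAdd, zero_add] at e0 e1 e2 f0 f1 f2 g0 g1 g2
    rw [c0] at e2
    rw [c1] at f1
    rw [c0] at g0
    have y00 : y 0 0 = 0 := by
      have : 2 * y 0 0 = 0 := by linear_combination e0 - e1 + e2
      exact (mul_eq_zero.mp this).resolve_left h2
    have y11 : y 1 1 = 0 := by linear_combination e0 - y00
    have y22 : y 2 2 = 0 := by linear_combination e1 - y11
    have y02 : y 0 2 = 0 := by linear_combination f0 - y11
    have y10 : y 1 0 = 0 := by linear_combination f1 - y22
    have y21 : y 2 1 = 0 := by linear_combination f2 - y00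
    have y12 : y 1 2 = 0 := by linear_combination g0 - y00
    have y20 : y 2 0 = 0 := by linear_combination g1 - y11
    have y01 : y 0 1 = 0 := by linear_combination g2 - y22
    intro i k hk
    interval_cases k <;> fin_cases i <;> assumption

theorem val_succ (a : ℕ) (ha : 1 < a) (u : ZMod a) :
    (u = -1 ∧ u.val + 1 = a ∧ (u + 1).val = 0) ∨ (u ≠ -1 ∧ (u + 1).val = u.val + 1) := by
  have : NeZero a := ⟨by omega⟩
  have : Fact (1 < a) := ⟨ha⟩
  have h := ZMod.val_add u 1
  rw [ZMod.val_one] at h
  have hlt := ZMod.val_lt u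
  by_cases hu : u = -1
  · left
    refine ⟨hu, ?_, ?_⟩
    · obtain ⟨c, rfl⟩ : ∃ c, a = c + 1 := ⟨a - 1, by omega⟩
      rw [hu, ZMod.val_neg_one]
    · rw [hu]; simp
  · right
    refine ⟨hu, ?_⟩
    have : u.val + 1 ≠ a := by
      intro he
      apply hu
      have h0 : (u + 1).val = 0 := by rw [h, he, Nat.mod_self]
      have h1 : u + 1 = 0 := (ZMod.val_eq_zero _).mp h0
      exact eq_neg_of_add_eq_zero_left h1
    rw [h, Nat.mod_eq_of_lt (by omega)]

/-- A closed sequence, read at the value of the successor. -/
theorem closed_val_succ {α : Type*} (b : ℕ) (hb : 1 < b) (f : ℕ → α) (hf : f b = f 0)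
    (k : ZMod b) : f (k + 1).val = f (k.val + 1) := by
  rcases val_succ b hb k with ⟨_, h1, h2⟩ | ⟨_, h⟩
  · rw [h1, h2, hf]
  · rw [h]

theorem good_transpose (F : Type*) [Field F] (a b : ℕ) (ha : 1 < a) (hb : 1 < b)
    (h : Good F a b) : Good F b a := by
  have : NeZero a := ⟨by omega⟩
  have : NeZero b := ⟨by omega⟩
  obtain ⟨w, hw, hne, hker⟩ := h
  refine ⟨fun k i => w (i : ZMod a) k.val, ?_, ?_, ?_⟩
  · intro k
    simp
  · intro k i hi
    have h1 := hne (i : ZMod a) k.val (ZMod.val_lt k)
    have e1 := closed_val_succ b hb (w (i : ZMod a)) (hw _) k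
    have e2 := closed_val_succ b hb (w ((i : ZMod a) + 1)) (hw _) k
    simp only [Nat.cast_add, Nat.cast_one, e1, e2]
    omega
  · intro y hy hlt hgt
    have key := hker (fun i k => y (k : ZMod b) i.val) (fun i => by simp) ?_ ?_
    · intro k i hi
      have := key (i : ZMod a) k.val (ZMod.val_lt k)
      simpa [ZMod.val_natCast, Nat.mod_eq_of_lt hi] using this
    · intro i k hk hlt'
      have e1 := closed_val_succ b hb (w i) (hw _) (k : ZMod b)
      have e2 := closed_val_succ b hb (w (i + 1)) (hw _) (k : ZMod b)
      have e3 := closed_val_succ a ha (y ((k : ZMod b) + 1)) (hy _) i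
      have hkv : (k : ZMod b).val = k := by rw [ZMod.val_natCast, Nat.mod_eq_of_lt hk]
      have := hlt (k : ZMod b) i.val (ZMod.val_lt i)
      simp only [Nat.cast_add, Nat.cast_one, ZMod.natCast_val, ZMod.cast_id', id_eq, e1, e2,
        hkv] at this
      simp only [Nat.cast_add, Nat.cast_one, e3]
      apply this
      omega
    · intro i k hk hlt'
      have e1 := closed_val_succ b hb (w i) (hw _) (k : ZMod b)
      have e2 := closed_val_succ b hb (w (i + 1)) (hw _) (k : ZMod b)
      have e3 := closed_val_succ a ha (y (k : ZMod b)) (hy _) i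
      have hkv : (k : ZMod b).val = k := by rw [ZMod.val_natCast, Nat.mod_eq_of_lt hk]
      have := hgt (k : ZMod b) i.val (ZMod.val_lt i)
      simp only [Nat.cast_add, Nat.cast_one, ZMod.natCast_val, ZMod.cast_id', id_eq, e1, e2,
        hkv] at this
      simp only [Nat.cast_add, Nat.cast_one, e3]
      rw [add_comm]
      apply this
      omega


/-- A column transition carries both signs next to each other. -/
theorem exists_switch (a : ℕ) (ha : 1 < a) (u v : ZMod a → ℕ)
    (hne : ∀ i, u i + v (i + 1) ≠ v i + u (i + 1)) :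
    ∃ j, v (j - 1) + u j < u (j - 1) + v j ∧ u j + v (j + 1) < v j + u (j + 1) := by
  have : NeZero a := ⟨by omega⟩
  by_contra hcon
  push Not at hcon
  have hsum : ∑ i, (u i + v (i + 1)) = ∑ i, (v i + u (i + 1)) := by
    rw [Finset.sum_add_distrib, Finset.sum_add_distrib]
    have e1 : ∑ i : ZMod a, v (i + 1) = ∑ i, v i := Equiv.sum_comp (Equiv.addRight (1 : ZMod a)) v
    have e2 : ∑ i : ZMod a, u (i + 1) = ∑ i, u i := Equiv.sum_comp (Equiv.addRight (1 : ZMod a)) u
    rw [e1, e2, add_comm]
  by_cases hex : ∃ i, v i + u (i + 1) < u i + v (i + 1)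
  · obtain ⟨i0, hi0⟩ := hex
    have step : ∀ n : ℕ, v (i0 + n) + u (i0 + n + 1) < u (i0 + n) + v (i0 + n + 1) := by
      intro n
      induction n with
      | zero => simpa using hi0
      | succ n ih =>
        have h1 := hcon (i0 + n + 1) (by simpa using ih)
        have h2 := hne (i0 + n + 1)
        push_cast
        rw [← add_assoc i0 (n : ZMod a) 1]
        omega
    have hall : ∀ i, v i + u (i + 1) < u i + v (i + 1) := by
      intro i
      have := step (i - i0).val
      simpa using this
    have : ∑ i, (v i + u (i + 1)) < ∑ i, (u i + v (i + 1)) :=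
      Finset.sum_lt_sum_of_nonempty Finset.univ_nonempty (fun i _ => hall i)
    omega
  · push Not at hex
    have hall : ∀ i, u i + v (i + 1) < v i + u (i + 1) := by
      intro i
      have := hex i
      have := hne i
      omega
    have : ∑ i, (u i + v (i + 1)) < ∑ i, (v i + u (i + 1)) :=
      Finset.sum_lt_sum_of_nonempty Finset.univ_nonempty (fun i _ => hall i)
    omega


theorem good_insert (F : Type*) [Field F] (a b : ℕ) (ha : 3 ≤ a) (hb : 1 ≤ b)
    (h : Good F a b) : Good F a (b + 2) := by
  obtain ⟨w, hw, hne, hker⟩ := h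
  have : NeZero a := ⟨by omega⟩
  have hb1 : b - 1 + 1 = b := by omega
  obtain ⟨j, hj1, hj2⟩ := exists_switch a (by omega) (fun i => w i (b - 1)) (fun i => w i b)
    (by
      intro i
      have := hne i (b - 1) (by omega)
      rwa [hb1] at this)
  -- elementary inequalities in ZMod a
  have one_ne : (1 : ZMod a) ≠ 0 := by
    intro h0
    have := (ZMod.natCast_eq_zero_iff 1 a).mp (by simpa using h0)
    have := Nat.le_of_dvd one_pos this
    omega
  have two_ne : (2 : ZMod a) ≠ 0 := by
    intro h0
    have := (ZMod.natCast_eq_zero_iff 2 a).mp (by simpa using h0)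
    have := Nat.le_of_dvd two_pos this
    omega
  have n1 : j + 1 ≠ j := fun h => one_ne (by linear_combination h)
  have n2 : j - 1 ≠ j := fun h => one_ne (by linear_combination -h)
  have n3 : j - 1 ≠ j + 1 := fun h => two_ne (by linear_combination -h)
  have n4 : j + 1 + 1 ≠ j := fun h => two_ne (by linear_combination h)
  have n5 : j + 1 + 1 ≠ j + 1 := fun h => one_ne (by linear_combination h)
  -- the two bump functions
  obtain ⟨p, hp⟩ : ∃ p : ZMod a → ℕ, ∀ i, p i = if i = j + 1 then a else 0 := ⟨_, fun _ => rfl⟩
  obtain ⟨q, hq⟩ : ∃ q : ZMod a → ℕ, ∀ i, q i = a - 1 - (i - (j + 1)).val :=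
    ⟨_, fun _ => rfl⟩
  have pj1 : p (j + 1) = a := by rw [hp, if_pos rfl]
  have pne : ∀ i, i ≠ j + 1 → p i = 0 := fun i hi => by rw [hp, if_neg hi]
  have ple : ∀ i, p i ≤ a := fun i => by
    rw [hp]; split_ifs <;> omega
  have qlt : ∀ i, q i + 1 ≤ a := fun i => by
    rw [hq]; omega
  have qj : q j = 0 ∧ q (j + 1) = a - 1 := by
    constructor
    · rw [hq]
      rcases val_succ a (by omega) (j - (j + 1)) with ⟨_, h1, _⟩ | ⟨h1, _⟩
      · omega
      · exact absurd (by ring) h1
    · rw [hq]; simp
  have qstep : ∀ i, i ≠ j → q (i + 1) + 1 = q i := by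
    intro i hi
    rw [hq, hq]
    rcases val_succ a (by omega) (i - (j + 1)) with ⟨h1, _⟩ | ⟨_, h2⟩
    · exact absurd (by linear_combination h1) hi
    · have h3 : i + 1 - (j + 1) = i - (j + 1) + 1 := by ring
      rw [h3, h2]
      have := ZMod.val_lt (i - (j + 1) + 1)
      rw [h2] at this
      omega
  -- the new weights
  obtain ⟨w', hw'⟩ : ∃ w' : ZMod a → ℕ → ℕ, ∀ i k, w' i k =
      if k < b then (a + 1) * w i k else if k = b then (a + 1) * w i 0 + p i
      else if k = b + 1 then (a + 1) * w i 0 + q i else (a + 1) * w i 0 := ⟨_, fun _ _ => rfl⟩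
  have v1 : ∀ i k, k < b → w' i k = (a + 1) * w i k := fun i k hk => by rw [hw', if_pos hk]
  have v2 : ∀ i, w' i b = (a + 1) * w i 0 + p i := fun i => by
    rw [hw', if_neg (by omega), if_pos rfl]
  have v3 : ∀ i, w' i (b + 1) = (a + 1) * w i 0 + q i := fun i => by
    rw [hw', if_neg (by omega), if_neg (by omega), if_pos rfl]
  have v4 : ∀ i, w' i (b + 2) = (a + 1) * w i 0 := fun i => by
    rw [hw', if_neg (by omega), if_neg (by omega), if_neg (by omega)]
  -- scaling lemma
  have scale : ∀ A B x y : ℕ, x ≤ a → y ≤ a → A < B → (a + 1) * A + x < (a + 1) * B + y := by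
    intro A B x y hx hy hAB
    have : (a + 1) * (A + 1) ≤ (a + 1) * B := Nat.mul_le_mul_left _ hAB
    rw [Nat.mul_add] at this
    omega
  -- sign transfer for the old cells
  have tr : ∀ i k, k < b →
      (w i k + w (i + 1) (k + 1) < w i (k + 1) + w (i + 1) k →
        w' i k + w' (i + 1) (k + 1) < w' i (k + 1) + w' (i + 1) k) ∧
      (w i (k + 1) + w (i + 1) k < w i k + w (i + 1) (k + 1) →
        w' i (k + 1) + w' (i + 1) k < w' i k + w' (i + 1) (k + 1)) := by
    intro i k hk
    by_cases hk1 : k + 1 < b
    · rw [v1 i k hk, v1 (i + 1) (k + 1) hk1, v1 i (k + 1) hk1, v1 (i + 1) k hk]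
      constructor
      · intro hlt
        have := scale _ _ 0 0 (by omega) (by omega) hlt
        rw [Nat.mul_add, Nat.mul_add] at this
        omega
      · intro hlt
        have := scale _ _ 0 0 (by omega) (by omega) hlt
        rw [Nat.mul_add, Nat.mul_add] at this
        omega
    · have hkb : k + 1 = b := by omega
      rw [hkb, v1 i k hk, v2 (i + 1), v2 i, v1 (i + 1) k hk, hw, hw]
      constructor
      · intro hlt
        have := scale _ _ (p (i + 1)) (p i) (ple _) (ple _) hlt
        rw [Nat.mul_add, Nat.mul_add] at this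
        omega
      · intro hlt
        have := scale _ _ (p i) (p (i + 1)) (ple _) (ple _) hlt
        rw [Nat.mul_add, Nat.mul_add] at this
        omega
  refine ⟨w', ?_, ?_, ?_⟩
  · intro i
    rw [v4, v1 i 0 (by omega)]
  · intro i k hk
    rcases lt_or_ge k b with hkb | hkb
    · have := hne i k hkb
      have t := tr i k hkb
      rcases lt_or_gt_of_ne this with h1 | h1
      · exact (t.1 h1).ne
      · exact (t.2 h1).ne'
    · rcases Nat.eq_or_lt_of_le hkb with rfl | hkb'
      · rw [v2, v3, v3, v2]
        by_cases hi : i = j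
        · subst hi
          rw [pj1, qj.1, qj.2, pne i n1.symm]
          omega
        · have := qstep i hi
          by_cases hi' : i = j + 1
          · subst hi'
            rw [pj1, pne _ n5]
            omega
          · by_cases hi'' : i + 1 = j + 1
            · exact absurd (by linear_combination hi'') hi
            · rw [pne _ hi', pne _ hi'']
              omega
      · have hk2 : k = b + 1 := by omega
        subst hk2
        rw [v3, v3, v4, v4]
        by_cases hi : i = j
        · subst hi
          rw [qj.1, qj.2]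
          omega
        · have := qstep i hi
          omega
  · intro y hy hlt hgt
    -- equations on the two new transitions
    have pq : ∀ i, i ≠ j + 1 → y i b + y (i + 1) (b + 1) = 0 := by
      intro i hi
      apply hlt i b (by omega)
      rw [v2, v3, v3, v2]
      by_cases hi' : i = j
      · subst hi'
        rw [pj1, qj.1, qj.2, pne i n1.symm]
        omega
      · have := qstep i hi'
        have hi'' : i + 1 ≠ j + 1 := fun h => hi' (by linear_combination h)
        rw [pne _ hi, pne _ hi'']
        omega
    have pq' : y (j + 1) (b + 1) + y (j + 1 + 1) b = 0 := by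
      apply hgt (j + 1) b (by omega)
      have := qstep (j + 1) n1
      rw [v2, v3, v3, v2, pj1, pne _ n5]
      omega
    have ql : ∀ i, i ≠ j → y i (b + 2) + y (i + 1) (b + 1) = 0 := by
      intro i hi
      apply hgt i (b + 1) (by omega)
      have := qstep i hi
      rw [v3, v4, v4, v3]
      omega
    have ql' : y j (b + 1) + y (j + 1) (b + 2) = 0 := by
      apply hlt j (b + 1) (by omega)
      rw [v3, v4, v4, v3, qj.1, qj.2]
      omega
    have kp1 : y (j - 1) b + y j (b - 1) = 0 := by
      have h1 := hgt (j - 1) (b - 1) (by omega)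
      rw [sub_add_cancel, hb1] at h1
      apply h1
      have h2 := (tr (j - 1) (b - 1) (by omega)).2
      rw [sub_add_cancel, hb1] at h2
      exact h2 hj1
    have kp2 : y j (b - 1) + y (j + 1) b = 0 := by
      have h1 := hlt j (b - 1) (by omega)
      rw [hb1] at h1
      apply h1
      have h2 := (tr j (b - 1) (by omega)).1
      rw [hb1] at h2
      exact h2 hj2
    have pl : ∀ i, i ≠ j → y i b = y i (b + 2) := by
      intro i hi
      by_cases hi' : i = j + 1
      · subst hi'
        have h1 := pq (j - 1) n3
        rw [sub_add_cancel] at h1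
        linear_combination kp2 - kp1 + h1 - ql'
      · linear_combination pq i hi' - ql i hi
    -- the old system
    obtain ⟨z, hz⟩ : ∃ z : ZMod a → ℕ → F, ∀ i k, z i k = if k = b then y i (b + 2) else y i k :=
      ⟨_, fun _ _ => rfl⟩
    have z1 : ∀ i k, k < b → z i k = y i k := fun i k hk => by rw [hz, if_neg (by omega)]
    have z2 : ∀ i, z i b = y i (b + 2) := fun i => by rw [hz, if_pos rfl]
    have old : ∀ i, ∀ k < b, z i k = 0 := by
      apply hker z
      · intro i
        rw [z2, z1 i 0 (by omega), hy]
      · intro i k hk hcell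
        have h1 := hlt i k (by omega) ((tr i k hk).1 hcell)
        by_cases hk1 : k + 1 < b
        · rw [z1 i k hk, z1 _ _ hk1, h1]
        · have hkb : k + 1 = b := by omega
          have hne' : i + 1 ≠ j := by
            intro he
            have hi : i = j - 1 := by linear_combination he
            subst hi
            have hk' : k = b - 1 := by omega
            subst hk'
            rw [sub_add_cancel, hb1] at hcell
            omega
          rw [z1 i k hk, hkb, z2, ← pl _ hne', ← hkb, h1]
      · intro i k hk hcell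
        have h1 := hgt i k (by omega) ((tr i k hk).2 hcell)
        by_cases hk1 : k + 1 < b
        · rw [z1 (i + 1) k hk, z1 _ _ hk1, h1]
        · have hkb : k + 1 = b := by omega
          have hne' : i ≠ j := by
            intro he
            subst he
            have hk' : k = b - 1 := by omega
            subst hk'
            rw [hb1] at hcell
            omega
          rw [z1 (i + 1) k hk, hkb, z2, ← pl _ hne', ← hkb, h1]
    have y0 : ∀ i, ∀ k < b, y i k = 0 := fun i k hk => by rw [← z1 i k hk, old i k hk]
    have yl : ∀ i, y i (b + 2) = 0 := fun i => by rw [hy, y0 i 0 (by omega)]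
    have yp : ∀ i, i ≠ j → y i b = 0 := fun i hi => by rw [pl i hi, yl]
    have yq : ∀ i, i ≠ j + 1 → y i (b + 1) = 0 := by
      intro i hi
      have h1 := ql (i - 1) (fun h => hi (by linear_combination h))
      rw [sub_add_cancel, yl, zero_add] at h1
      exact h1
    have yq' : y (j + 1) (b + 1) = 0 := by
      rw [yp _ n4, add_zero] at pq'
      exact pq'
    have yp' : y j b = 0 := by
      have h1 := pq j n1.symm
      rw [yq', add_zero] at h1
      exact h1
    intro i k hk
    rcases lt_or_ge k b with hkb | hkb
    · exact y0 i k hkb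
    · rcases Nat.eq_or_lt_of_le hkb with rfl | hkb'
      · by_cases hi : i = j
        · rw [hi, yp']
        · exact yp i hi
      · have hk2 : k = b + 1 := by omega
        subst hk2
        by_cases hi : i = j + 1
        · rw [hi, yq']
        · exact yq i hi

theorem good_odd (F : Type*) [Field F] (h2 : (2 : F) ≠ 0) (a b : ℕ) (ha : Odd a) (hb : Odd b)
    (ha3 : 3 ≤ a) (hb3 : 3 ≤ b) : Good F a b := by
  have ext : ∀ (a : ℕ), 3 ≤ a → Good F a 3 → ∀ n : ℕ, Good F a (3 + 2 * n) := by
    intro a ha h n
    induction n with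
    | zero => exact h
    | succ n ih => exact good_insert F a (3 + 2 * n) ha (by omega) ih
  obtain ⟨s, hs⟩ := ha
  obtain ⟨t, ht⟩ := hb
  have h3a : Good F 3 a := by
    have := ext 3 le_rfl (good_three F h2) (s - 1)
    rwa [show 3 + 2 * (s - 1) = a by omega] at this
  have ha3' : Good F a 3 := good_transpose F 3 a (by norm_num) (by omega) h3a
  have := ext a ha3 ha3' (t - 1)
  rwa [show 3 + 2 * (t - 1) = b by omega] at this

end Pool.Agent.MP305
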