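import Mathlib
import Pool.Agent.MP_305ad1_co.Comb

open Matrix

namespace Pool.Agent.MP305

/-- The Jacobian matrix of the pair of cycles of lengths `a` and `b` at the point `x`. -/
def cycMat (R : Type*) [CommRing R] (a b : ℕ) (x : ZMod a → ZMod b → R) :
    Matrix (ZMod a × ZMod b) (ZMod a × ZMod b) R :=
  Matrix.of fun r v =>
    x r.1 r.2 * (if v = (r.1 + 1, r.2 + 1) then 1 else 0)
      + x (r.1 + 1) (r.2 + 1) * (if v = r then 1 else 0)
      - x r.1 (r.2 + 1) * (if v = (r.1 + 1, r.2) then 1 else 0)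
      - x (r.1 + 1) r.2 * (if v = (r.1, r.2 + 1) then 1 else 0)

theorem cycMat_mulVec (R : Type*) [CommRing R] (a b : ℕ) [NeZero a] [NeZero b]
    (x : ZMod a → ZMod b → R) (y : ZMod a × ZMod b → R) (r : ZMod a × ZMod b) :
    (cycMat R a b x *ᵥ y) r = x r.1 r.2 * y (r.1 + 1, r.2 + 1) + x (r.1 + 1) (r.2 + 1) * y r
      - x r.1 (r.2 + 1) * y (r.1 + 1, r.2) - x (r.1 + 1) r.2 * y (r.1, r.2 + 1) := by
  simp only [Matrix.mulVec, dotProduct, cycMat, Matrix.of_apply, sub_mul, add_mul,
    Finset.sum_sub_distrib, Finset.sum_add_distrib, mul_assoc, ite_mul, one_mul, zero_mul,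
    mul_ite, mul_zero, Finset.sum_ite_eq', Finset.mem_univ, if_true]

theorem cycMat_map (R S : Type*) [CommRing R] [CommRing S] (f : R →+* S) (a b : ℕ)
    (x : ZMod a → ZMod b → R) :
    (cycMat R a b x).map f = cycMat S a b (fun i k => f (x i k)) := by
  ext r v
  simp only [cycMat, Matrix.map_apply, Matrix.of_apply, map_sub, map_add, map_mul]
  congr 1
  · congr 1
    · congr 1 <;> split_ifs <;> simp
    · split_ifs <;> simp
  · split_ifs <;> simp

theorem det_pow_ne_zero (F : Type*) [Field F] (h2 : (2 : F) ≠ 0) (a b : ℕ) [NeZero a] [NeZero b]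
    (ha : Odd a) (hb : Odd b) (ha3 : 3 ≤ a) (hb3 : 3 ≤ b) :
    ∃ W : ZMod a → ZMod b → ℕ,
      (cycMat (Polynomial F) a b (fun i k => Polynomial.X ^ W i k)).det ≠ 0 := by
  obtain ⟨w, hw, hne, hker⟩ := good_odd F h2 a b ha hb ha3 hb3
  obtain ⟨W, hW⟩ : ∃ W : ZMod a → ZMod b → ℕ, ∀ i k, W i k = w i k.val := ⟨_, fun _ _ => rfl⟩
  refine ⟨W, ?_⟩
  have hW1 : ∀ i (k : ZMod b), W i (k + 1) = w i (k.val + 1) := fun i k => by
    rw [hW, closed_val_succ b (by omega) (w i) (hw i) k]
  obtain ⟨p, hp⟩ : ∃ p : ZMod a × ZMod b → ℕ, ∀ r, p r = W r.1 r.2 + W (r.1 + 1) (r.2 + 1) :=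
    ⟨_, fun _ => rfl⟩
  obtain ⟨q, hq⟩ : ∃ q : ZMod a × ZMod b → ℕ, ∀ r, q r = W r.1 (r.2 + 1) + W (r.1 + 1) r.2 :=
    ⟨_, fun _ => rfl⟩
  obtain ⟨N, hN⟩ : ∃ N : Matrix (ZMod a × ZMod b) (ZMod a × ZMod b) (Polynomial F), ∀ r v,
      N r v = Polynomial.X ^ (p r - min (p r) (q r)) *
          ((if v = (r.1 + 1, r.2 + 1) then 1 else 0) + (if v = r then 1 else 0))
        - Polynomial.X ^ (q r - min (p r) (q r)) *
          ((if v = (r.1 + 1, r.2) then 1 else 0) + (if v = (r.1, r.2 + 1) then 1 else 0)) :=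
    ⟨fun r v => _, fun _ _ => rfl⟩
  have hfac : cycMat (Polynomial F) a b (fun i k => Polynomial.X ^ W i k) *
      Matrix.diagonal (fun v => Polynomial.X ^ W v.1 v.2) =
      Matrix.diagonal (fun r => Polynomial.X ^ (min (p r) (q r))) * N := by
    ext1 r v
    rw [Matrix.mul_diagonal, Matrix.diagonal_mul, hN]
    have e1 : (Polynomial.X : Polynomial F) ^ (min (p r) (q r)) *
        Polynomial.X ^ (p r - min (p r) (q r)) = Polynomial.X ^ (p r) := by
      rw [← pow_add]; congr 1; omega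
    have e2 : (Polynomial.X : Polynomial F) ^ (min (p r) (q r)) *
        Polynomial.X ^ (q r - min (p r) (q r)) = Polynomial.X ^ (q r) := by
      rw [← pow_add]; congr 1; omega
    rw [mul_sub, ← mul_assoc, ← mul_assoc, e1, e2, hp, hq]
    simp only [cycMat, Matrix.of_apply]
    have key : ∀ (u : ZMod a × ZMod b) (A : Polynomial F),
        A * (if v = u then 1 else 0) * Polynomial.X ^ W v.1 v.2 =
        A * Polynomial.X ^ W u.1 u.2 * (if v = u then 1 else 0) := by
      intro u A
      split_ifs with h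
      · rw [h]; ring
      · ring
    rw [sub_mul, sub_mul, add_mul, key, key, key, key]
    rw [pow_add, pow_add]
    ring
  have hdetN : N.det ≠ 0 := by
    intro h0
    have h1 : ((Polynomial.evalRingHom (0 : F)).mapMatrix N).det = 0 := by
      rw [← RingHom.map_det, h0, map_zero]
    obtain ⟨v, hv0, hv⟩ := Matrix.exists_mulVec_eq_zero_iff.mpr h1
    apply hv0
    have hrow : ∀ r : ZMod a × ZMod b,
        (0 : F) ^ (p r - min (p r) (q r)) * (v (r.1 + 1, r.2 + 1) + v r)
        - (0 : F) ^ (q r - min (p r) (q r)) * (v (r.1 + 1, r.2) + v (r.1, r.2 + 1)) = 0 := by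
      intro r
      have := congrFun hv r
      simp only [Matrix.mulVec, dotProduct, RingHom.mapMatrix_apply, Matrix.map_apply, hN,
        Polynomial.coe_evalRingHom, Polynomial.eval_sub, Polynomial.eval_mul,
        Polynomial.eval_pow, Polynomial.eval_X, Polynomial.eval_add, Pi.zero_apply] at this
      have ev : ∀ (u w : ZMod a × ZMod b),
          Polynomial.eval (0 : F) (if w = u then 1 else 0) = if w = u then 1 else 0 := by
        intro u w
        split_ifs <;> simp
      simp only [ev, sub_mul, add_mul, mul_add, mul_assoc, Finset.sum_sub_distrib,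
        Finset.sum_add_distrib, ite_mul, one_mul, zero_mul, mul_ite, mul_zero,
        Finset.sum_ite_eq', Finset.mem_univ, if_true] at this
      linear_combination this
    have hval := fun (i : ZMod a) (k : ℕ) (hk : k < b) =>
      show ((k : ZMod b)).val = k by rw [ZMod.val_natCast, Nat.mod_eq_of_lt hk]
    have key := hker (fun i k => v (i, (k : ZMod b))) (fun i => by simp) ?_ ?_
    · funext r
      have := key r.1 r.2.val (ZMod.val_lt _)
      simpa using this
    · intro i k hk hlt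
      have h3 := hrow (i, (k : ZMod b))
      have hpq : p (i, (k : ZMod b)) < q (i, (k : ZMod b)) := by
        rw [hp, hq]
        simp only [hW1, hW, hval i k hk]
        exact hlt
      have m1 : p (i, (k : ZMod b)) - min (p (i, (k : ZMod b))) (q (i, (k : ZMod b))) = 0 := by
        omega
      have m2 : q (i, (k : ZMod b)) - min (p (i, (k : ZMod b))) (q (i, (k : ZMod b))) ≠ 0 := by
        omega
      rw [m1, pow_zero, zero_pow m2] at h3
      simp only [Nat.cast_add, Nat.cast_one]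
      linear_combination h3
    · intro i k hk hlt
      have h3 := hrow (i, (k : ZMod b))
      have hpq : q (i, (k : ZMod b)) < p (i, (k : ZMod b)) := by
        rw [hp, hq]
        simp only [hW1, hW, hval i k hk]
        exact hlt
      have m1 : p (i, (k : ZMod b)) - min (p (i, (k : ZMod b))) (q (i, (k : ZMod b))) ≠ 0 := by
        omega
      have m2 : q (i, (k : ZMod b)) - min (p (i, (k : ZMod b))) (q (i, (k : ZMod b))) = 0 := by
        omega
      rw [m2, pow_zero, zero_pow m1] at h3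
      simp only [Nat.cast_add, Nat.cast_one]
      linear_combination -h3
  intro h0
  have h1 := congrArg Matrix.det hfac
  rw [Matrix.det_mul, h0, zero_mul, Matrix.det_mul, Matrix.det_diagonal] at h1
  rcases mul_eq_zero.mp h1.symm with h | h
  · have : ∏ i : ZMod a × ZMod b, (Polynomial.X : Polynomial F) ^ (min (p i) (q i)) ≠ 0 :=
      Finset.prod_ne_zero_iff.mpr (fun i _ => pow_ne_zero _ Polynomial.X_ne_zero)
    exact this h
  · exact hdetN h

theorem det_generic_ne_zero (F : Type*) [Field F] (h2 : (2 : F) ≠ 0) (a b : ℕ) [NeZero a]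
    [NeZero b] (ha : Odd a) (hb : Odd b) (ha3 : 3 ≤ a) (hb3 : 3 ≤ b) :
    (cycMat (MvPolynomial (ZMod a × ZMod b) F) a b (fun i k => MvPolynomial.X (i, k))).det ≠ 0 := by
  obtain ⟨W, hW⟩ := det_pow_ne_zero F h2 a b ha hb ha3 hb3
  intro h0
  apply hW
  have h1 := congrArg (MvPolynomial.eval₂Hom (Polynomial.C)
    (fun v : ZMod a × ZMod b => (Polynomial.X : Polynomial F) ^ W v.1 v.2)) h0
  rw [RingHom.map_det, RingHom.mapMatrix_apply, cycMat_map, map_zero] at h1
  simpa using h1

/-- Kernel triviality for a pair of odd cycles embedded in a generic matrix. -/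
theorem ker_trivial_of_embedded (F : Type*) [Field F] (h2 : (2 : F) ≠ 0) {V W K : Type*}
    [Field K] (ι : MvPolynomial (V × W) F →+* K) (hι : Function.Injective ι)
    (a b : ℕ) (ha : Odd a) (hb : Odd b) (ha3 : 3 ≤ a) (hb3 : 3 ≤ b)
    (φ : ZMod a → V) (hφ : Function.Injective φ) (ψ : ZMod b → W) (hψ : Function.Injective ψ)
    (y : V → W → K)
    (hy : ∀ s t, ι (MvPolynomial.X (φ s, ψ t)) * y (φ (s + 1)) (ψ (t + 1))
      + ι (MvPolynomial.X (φ (s + 1), ψ (t + 1))) * y (φ s) (ψ t)
      = ι (MvPolynomial.X (φ s, ψ (t + 1))) * y (φ (s + 1)) (ψ t)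
      + ι (MvPolynomial.X (φ (s + 1), ψ t)) * y (φ s) (ψ (t + 1))) (s : ZMod a) (t : ZMod b) :
    y (φ s) (ψ t) = 0 := by
  have : NeZero a := ⟨by omega⟩
  have : NeZero b := ⟨by omega⟩
  have hinj : Function.Injective (fun v : ZMod a × ZMod b => (φ v.1, ψ v.2)) := by
    rintro ⟨s1, t1⟩ ⟨s2, t2⟩ h
    simp only [Prod.mk.injEq] at h ⊢
    exact ⟨hφ h.1, hψ h.2⟩
  obtain ⟨f, hf⟩ : ∃ f : MvPolynomial (ZMod a × ZMod b) F →+* K,
      f = ι.comp (MvPolynomial.rename (fun v : ZMod a × ZMod b => (φ v.1, ψ v.2))).toRingHom :=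
    ⟨_, rfl⟩
  have hfinj : Function.Injective f := by
    rw [hf]
    exact hι.comp (MvPolynomial.rename_injective _ hinj)
  have hfX : ∀ v : ZMod a × ZMod b, f (MvPolynomial.X v) = ι (MvPolynomial.X (φ v.1, ψ v.2)) := by
    intro v
    rw [hf]
    simp
  have hdet : (cycMat K a b (fun i k => ι (MvPolynomial.X (φ i, ψ k)))).det ≠ 0 := by
    have h1 := det_generic_ne_zero F h2 a b ha hb ha3 hb3
    have h2 : f ((cycMat (MvPolynomial (ZMod a × ZMod b) F) a b
        (fun i k => MvPolynomial.X (i, k))).det) ≠ 0 := by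
      rw [Ne, map_eq_zero_iff f hfinj]
      exact h1
    rw [RingHom.map_det, RingHom.mapMatrix_apply, cycMat_map] at h2
    simpa only [hfX] using h2
  by_contra hne
  apply hdet
  rw [← Matrix.exists_mulVec_eq_zero_iff]
  refine ⟨fun v => y (φ v.1) (ψ v.2), ?_, ?_⟩
  · intro h0
    exact hne (congrFun h0 (s, t))
  · funext r
    rw [cycMat_mulVec]
    simp only [Pi.zero_apply]
    linear_combination hy r.1 r.2

end Pool.Agent.MP305
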