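import Mathlib
import Pool.Agent.MP_305ad1_co.Det

open SimpleGraph

namespace Pool.Agent.MP305

variable {V W K : Type*} [Field K]

/-- The Jacobian of the pair `(G,H)` at `x` kills the vector `y`. -/
def IsKer (G : SimpleGraph V) (H : SimpleGraph W) (x y : V → W → K) : Prop :=
  ∀ i j k l, G.Adj i j → H.Adj k l →
    x i k * y j l + x j l * y i k = x i l * y j k + x j k * y i l

/-- The Jacobian of the pair `(G,H)` at `x` has trivial kernel. -/
def Triv (G : SimpleGraph V) (H : SimpleGraph W) (x : V → W → K) : Prop :=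
  ∀ y : V → W → K, IsKer G H x y → ∀ i k, y i k = 0

theorem Triv.symm {G : SimpleGraph V} {H : SimpleGraph W} {x : V → W → K} (h : Triv G H x) :
    Triv H G (fun k i => x i k) := by
  intro y hy k i
  apply h (fun i k => y k i)
  intro i j k l hij hkl
  have := hy k l i j hkl hij
  linear_combination this

theorem Triv.exists_two {G : SimpleGraph V} {H : SimpleGraph W} {x : V → W → K}
    (h : Triv G H x) (hx : ∀ i k, x i k ≠ 0) (i0 : V) (k : W) :
    ∃ l1 l2, l1 ≠ l2 ∧ H.Adj k l1 ∧ H.Adj k l2 := by
  classical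
  by_contra hcon
  push Not at hcon
  obtain ⟨l, hl⟩ : ∃ l, ∀ l', H.Adj k l' → l' = l := by
    by_cases hex : ∃ l, H.Adj k l
    · obtain ⟨l, hkl⟩ := hex
      refine ⟨l, fun l' hl' => ?_⟩
      by_contra hne
      exact hcon l' l hne hl' hkl
    · push Not at hex
      exact ⟨k, fun l' hl' => absurd hl' (hex l')⟩
  have := h (fun i k' => if k' = k then x i l else 0) ?_ i0 k
  · rw [if_pos rfl] at this
    exact hx _ _ this
  · intro i j k1 l1 _ hkl
    by_cases h1 : k1 = k
    · subst h1
      have e1 := hl l1 hkl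
      have e2 : l1 ≠ k1 := hkl.ne'
      simp only [if_neg e2, if_true]
      rw [e1]; ring
    · by_cases h2 : l1 = k
      · subst h2
        have e1 := hl k1 hkl.symm
        simp only [if_neg h1, if_true]
        rw [e1]; ring
      · simp only [if_neg h1, if_neg h2]
        ring

theorem Triv.sign {G : SimpleGraph V} {H : SimpleGraph W} {x : V → W → K}
    (h : Triv G H x) (hx : ∀ i k, x i k ≠ 0) (i0 : V) (ε : W → K)
    (hε : ∀ k l, H.Adj k l → ε k + ε l = 0) (k : W) : ε k = 0 := by
  have := h (fun i k => ε k * x i k) ?_ i0 k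
  · exact (mul_eq_zero.mp this).resolve_right (hx _ _)
  · intro i j k l _ hkl
    have e := hε k l hkl
    linear_combination (x i k * x j l - x i l * x j k) * e

/-- `G` is a vertex-disjoint union of odd cycles (each connected component is isomorphic to a
cycle graph of odd length at least three). -/
def OddCycles (G : SimpleGraph V) : Prop :=
  ∀ c : G.ConnectedComponent, ∃ k : ℕ, 3 ≤ k ∧ Odd k ∧
    Nonempty (c.toSimpleGraph ≃g SimpleGraph.cycleGraph k)

theorem OddCycles.exists_param {G : SimpleGraph V} (h : OddCycles G) (v : V) :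
    ∃ a, Odd a ∧ 3 ≤ a ∧ ∃ φ : ZMod a → V, Function.Injective φ ∧
      (∀ s, G.Adj (φ s) (φ (s + 1))) ∧ ∃ s, φ s = v := by
  obtain ⟨k, hk3, hodd, ⟨e⟩⟩ := h (G.connectedComponentMk v)
  obtain ⟨m, rfl⟩ : ∃ m, k = m + 3 := ⟨k - 3, by omega⟩
  refine ⟨m + 3, hodd, hk3, fun s => (e.symm (s : Fin (m + 3)) : (G.connectedComponentMk v)).val,
    ?_, ?_, ?_⟩
  · intro s t hst
    exact e.symm.injective (Subtype.val_injective hst)
  · intro s
    have key : ∀ s : Fin (m + 3), (cycleGraph (m + 3)).Adj s (s + 1) := by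
      intro s
      rw [cycleGraph_adj]
      right
      abel
    have h2 := (e.symm.map_adj_iff).mpr (key s)
    exact h2
  · refine ⟨e ⟨v, ConnectedComponent.connectedComponentMk_mem⟩, ?_⟩
    simp

/-- In a union of odd cycles every vertex has exactly two neighbours. -/
theorem OddCycles.neighbors {G : SimpleGraph V} (h : OddCycles G) (v : V) :
    ∃ l1 l2, l1 ≠ l2 ∧ G.neighborSet v = {l1, l2} := by
  obtain ⟨k, hk3, hodd, ⟨e⟩⟩ := h (G.connectedComponentMk v)
  obtain ⟨m, rfl⟩ : ∃ m, k = m + 3 := ⟨k - 3, by omega⟩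
  set v' : (G.connectedComponentMk v) := ⟨v, ConnectedComponent.connectedComponentMk_mem⟩ with hv'
  refine ⟨(e.symm (e v' - 1)).val, (e.symm (e v' + 1)).val, ?_, ?_⟩
  · intro h0
    have h1 := e.symm.injective (Subtype.val_injective h0)
    have h2 : (1 : Fin (m + 3)) + 1 = 0 := by
      have : (1 : Fin (m + 3)) + 1 = (e v' + 1) - (e v' - 1) := by abel
      rw [this, h1, sub_self]
    have h3 := congrArg Fin.val h2
    rw [Fin.val_add, Fin.val_one, Fin.val_zero, Nat.mod_eq_of_lt (by omega)] at h3
    omega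
  · ext u
    simp only [mem_neighborSet, Set.mem_insert_iff, Set.mem_singleton_iff]
    constructor
    · intro hadj
      have hu : u ∈ (G.connectedComponentMk v).supp := by
        rw [ConnectedComponent.mem_supp_iff, ConnectedComponent.eq]
        exact hadj.symm.reachable
      have h1 : (G.connectedComponentMk v).toSimpleGraph.Adj v' ⟨u, hu⟩ := hadj
      have h2 := (e.map_adj_iff).mpr h1
      rw [cycleGraph_adj] at h2
      rcases h2 with h2 | h2
      · left
        have : e v' - 1 = e ⟨u, hu⟩ := by rw [← h2]; abel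
        rw [this]; simp
      · right
        have : e v' + 1 = e ⟨u, hu⟩ := by rw [← h2]; abel
        rw [this]; simp
    · rintro (rfl | rfl)
      · have h1 : (cycleGraph (m + 3)).Adj (e v') (e v' - 1) := by
          rw [cycleGraph_adj]; left; abel
        have h2 := (e.symm.map_adj_iff).mpr h1
        simp only [RelIso.symm_apply_apply] at h2
        exact h2
      · have h1 : (cycleGraph (m + 3)).Adj (e v') (e v' + 1) := by
          rw [cycleGraph_adj]; right; abel
        have h2 := (e.symm.map_adj_iff).mpr h1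
        simp only [RelIso.symm_apply_apply] at h2
        exact h2

theorem triv_of_oddCycles (F : Type*) [Field F] (h2 : (2 : F) ≠ 0)
    (ι : MvPolynomial (V × W) F →+* K) (hι : Function.Injective ι)
    {G : SimpleGraph V} {H : SimpleGraph W} (hG : OddCycles G) (hH : OddCycles H) :
    Triv G H (fun i k => ι (MvPolynomial.X (i, k))) := by
  intro y hy v w
  obtain ⟨a, ha, ha3, φ, hφ, hφadj, s, hs⟩ := hG.exists_param v
  obtain ⟨b, hb, hb3, ψ, hψ, hψadj, t, ht⟩ := hH.exists_param w
  rw [← hs, ← ht]
  apply ker_trivial_of_embedded F h2 ι hι a b ha hb ha3 hb3 φ hφ ψ hψ y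
  intro s t
  exact hy (φ s) (φ (s + 1)) (ψ t) (ψ (t + 1)) (hφadj s) (hψadj t)


theorem fin_sign (m : ℕ) (hm : Even (m + 3)) (s : Fin (m + 3)) :
    (-1 : K) ^ s.val + (-1 : K) ^ (s + 1).val = 0 := by
  have h1 : (s + 1).val = (s.val + 1) % (m + 3) := by
    rw [Fin.val_add, Fin.val_one]
  by_cases hs : s.val + 1 < m + 3
  · rw [h1, Nat.mod_eq_of_lt hs, pow_succ]; ring
  · have hs' : s.val + 1 = m + 3 := by have := s.isLt; omega
    rw [h1, hs', Nat.mod_self, pow_zero]
    have hodd : Odd s.val := by
      rw [← hs'] at hm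
      exact (Nat.even_add_one.mp hm) |> Nat.not_even_iff_odd.mp
    rw [hodd.neg_one_pow]; ring

theorem oddCycles_of [Finite V] {G : SimpleGraph V}
    (hdeg : ∀ v, ∃ l1 l2, l1 ≠ l2 ∧ G.neighborSet v = {l1, l2})
    (hsign : ∀ ε : V → K, (∀ k l, G.Adj k l → ε k + ε l = 0) → ∀ k, ε k = 0) :
    OddCycles G := by
  classical
  have hcyc : G.IsCycles := by
    intro v _
    obtain ⟨l1, l2, hne, hN⟩ := hdeg v
    rw [hN, Set.ncard_pair hne]
  intro c
  obtain ⟨v, hv⟩ := c.nonempty_supp
  obtain ⟨l1, l2, hne, hN⟩ := hdeg v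
  obtain ⟨p, hp, hverts⟩ := hcyc.exists_cycle_toSubgraph_verts_eq_connectedComponentSupp hv
    (by rw [hN]; exact ⟨l1, by simp⟩)
  have hlen := hp.three_le_length
  obtain ⟨m, hm⟩ : ∃ m, p.length = m + 3 := ⟨p.length - 3, by omega⟩
  have hlast : p.getVert (m + 3) = v := by
    have := p.getVert_length
    rwa [hm] at this
  have hmem : ∀ t : ℕ, p.getVert t ∈ c.supp := by
    intro t
    rw [← hverts, Walk.mem_verts_toSubgraph]
    exact p.getVert_mem_support t
  have hadj : ∀ t : Fin (m + 3), G.Adj (p.getVert t.val) (p.getVert (t + 1).val) := by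
    intro t
    have h1 : (t + 1).val = (t.val + 1) % (m + 3) := by
      rw [Fin.val_add, Fin.val_one]
    by_cases ht : t.val + 1 < m + 3
    · rw [h1, Nat.mod_eq_of_lt ht]
      exact p.adj_getVert_succ (by omega)
    · have ht' : t.val + 1 = m + 3 := by have := t.isLt; omega
      rw [h1, ht', Nat.mod_self, Walk.getVert_zero]
      have := p.adj_getVert_succ (i := t.val) (by omega)
      rwa [ht', hlast] at this
  have hinj : ∀ s t : Fin (m + 3), p.getVert s.val = p.getVert t.val → s = t := by
    intro s t hst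
    have := hp.getVert_injOn' (x₁ := s.val) (x₂ := t.val)
      (by simp only [Set.mem_ofPred_eq]; have := s.isLt; omega)
      (by simp only [Set.mem_ofPred_eq]; have := t.isLt; omega) hst
    exact Fin.ext this
  have hsurj : ∀ u ∈ c.supp, ∃ t : Fin (m + 3), p.getVert t.val = u := by
    intro u hu
    rw [← hverts, Walk.mem_verts_toSubgraph, Walk.mem_support_iff_exists_getVert] at hu
    obtain ⟨n, hn, hnl⟩ := hu
    by_cases hn' : n = m + 3
    · refine ⟨0, ?_⟩
      rw [← hn, hn', hlast]
      simp
    · exact ⟨⟨n, by omega⟩, hn⟩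
  have htwo : ∀ t : Fin (m + 3), t + 1 ≠ t - 1 := by
    intro t h0
    have h2 : (1 : Fin (m + 3)) + 1 = 0 := by
      have : (1 : Fin (m + 3)) + 1 = (t + 1) - (t - 1) := by abel
      rw [this, h0, sub_self]
    have h3 := congrArg Fin.val h2
    rw [Fin.val_add, Fin.val_one, Fin.val_zero, Nat.mod_eq_of_lt (by omega)] at h3
    omega
  have hrefl : ∀ s t : Fin (m + 3), G.Adj (p.getVert s.val) (p.getVert t.val) →
      (cycleGraph (m + 3)).Adj s t := by
    intro s t hst
    obtain ⟨u1, u2, hu, hNs⟩ := hdeg (p.getVert s.val)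
    have a1 : p.getVert (s + 1).val ∈ G.neighborSet (p.getVert s.val) := hadj s
    have a2 : p.getVert (s - 1).val ∈ G.neighborSet (p.getVert s.val) := by
      have := (hadj (s - 1)).symm
      rwa [sub_add_cancel] at this
    have a3 : p.getVert t.val ∈ G.neighborSet (p.getVert s.val) := hst
    have a12 : p.getVert (s + 1).val ≠ p.getVert (s - 1).val :=
      fun h => htwo s (hinj _ _ h)
    rw [hNs] at a1 a2 a3
    simp only [Set.mem_insert_iff, Set.mem_singleton_iff] at a1 a2 a3
    have a4 : p.getVert t.val = p.getVert (s + 1).val ∨ p.getVert t.val = p.getVert (s - 1).val := by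
      rcases a1 with a1 | a1 <;> rcases a2 with a2 | a2 <;> rcases a3 with a3 | a3 <;>
        simp_all
    rw [cycleGraph_adj]
    rcases a4 with h | h
    · right
      rw [hinj _ _ h]; abel
    · left
      rw [hinj _ _ h]; abel
  have hfor : ∀ s t : Fin (m + 3), (cycleGraph (m + 3)).Adj s t →
      G.Adj (p.getVert s.val) (p.getVert t.val) := by
    intro s t hst
    rw [cycleGraph_adj] at hst
    rcases hst with h | h
    · have : s = t + 1 := by rw [← h]; abel
      rw [this]; exact (hadj t).symm
    · have : t = s + 1 := by rw [← h]; abel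
      rw [this]; exact hadj s
  let f : Fin (m + 3) → c := fun t => ⟨p.getVert t.val, hmem t.val⟩
  have hf : Function.Bijective f := by
    constructor
    · intro s t hst
      exact hinj s t (congrArg Subtype.val hst)
    · rintro ⟨u, hu⟩
      obtain ⟨t, ht⟩ := hsurj u hu
      exact ⟨t, Subtype.ext ht⟩
  let e0 : Fin (m + 3) ≃ c := Equiv.ofBijective f hf
  have he0 : ∀ t, (e0 t).val = p.getVert t.val := fun t => rfl
  refine ⟨m + 3, by omega, ?_, ⟨?_⟩⟩
  · rw [← Nat.not_even_iff_odd]
    intro heven
    have key := hsign (fun w => if h : w ∈ c.supp then (-1 : K) ^ (e0.symm ⟨w, h⟩).val else 0)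
      ?_ v
    · rw [dif_pos hv] at key
      exact absurd key (pow_ne_zero _ (neg_ne_zero.mpr one_ne_zero))
    · intro w w' hww'
      by_cases hw : w ∈ c.supp
      · have hw' : w' ∈ c.supp := by
          rw [ConnectedComponent.mem_supp_iff] at hw ⊢
          rw [← hw, ConnectedComponent.eq]
          exact hww'.symm.reachable
        rw [dif_pos hw, dif_pos hw']
        have h1 : (cycleGraph (m + 3)).Adj (e0.symm ⟨w, hw⟩) (e0.symm ⟨w', hw'⟩) := by
          apply hrefl
          rw [← he0, ← he0]
          simpa using hww'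
        rw [cycleGraph_adj] at h1
        rcases h1 with h | h
        · have : e0.symm ⟨w, hw⟩ = e0.symm ⟨w', hw'⟩ + 1 := by rw [← h]; abel
          rw [this, add_comm]
          exact fin_sign m heven _
        · have : e0.symm ⟨w', hw'⟩ = e0.symm ⟨w, hw⟩ + 1 := by rw [← h]; abel
          rw [this]
          exact fin_sign m heven _
      · have hw' : w' ∉ c.supp := by
          intro hw'
          apply hw
          rw [ConnectedComponent.mem_supp_iff] at hw' ⊢
          rw [← hw', ConnectedComponent.eq]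
          exact hww'.reachable
        rw [dif_neg hw, dif_neg hw']; ring
  · refine ⟨e0.symm, ?_⟩
    intro x y
    constructor
    · intro h
      have := hfor _ _ h
      rw [← he0, ← he0, Equiv.apply_symm_apply, Equiv.apply_symm_apply] at this
      exact this
    · intro h
      apply hrefl
      rw [← he0, ← he0, Equiv.apply_symm_apply, Equiv.apply_symm_apply]
      exact h

end Pool.Agent.MP305
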